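import Pool.Agent.helper26.EC.SpecS

/-!
# ec:SLW (MP_5628fe_nt): the sieve weights on natural numbers (certificate)
-/

set_option autoImplicit false

namespace Pool.Agent.EC

open Finset ArithmeticFunction
open Pool.Agent.CH (Win)
open Pool.Agent.CHS (PB WLo WUp WTail)
open Pool.Agent.RLS (SS Dat Good)

private theorem SLW_P0 (hPA : Pool.Agent.CHS.PA_stmt) {x : ℝ} {p : ℕ} (hp : p ∈ CHS.P0 x) :
    p.Prime ∧ 7 ≤ p ∧ Real.log p < x := by
  unfold CHS.P0 at hp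
  rw [hPA.1] at hp
  refine ⟨hp.1, ?_, hp.2.2⟩
  have h1 : (0 : ℝ) < p := by exact_mod_cast hp.1.pos
  have h2 : (7 : ℝ) ≤ p := (Real.log_le_log_iff (by norm_num) h1).1 hp.2.1
  exact_mod_cast h2

private theorem SLW_P0_mono (hPA : Pool.Agent.CHS.PA_stmt) {x y : ℝ} (hxy : x ≤ y) :
    CHS.P0 x ⊆ CHS.P0 y := by
  intro p hp
  unfold CHS.P0 at hp ⊢
  rw [hPA.1] at hp ⊢
  exact ⟨hp.1, hp.2.1, hp.2.2.trans_le hxy⟩

private theorem SLW_fac (hPA : Pool.Agent.CHS.PA_stmt) {x : ℝ} {p : ℕ} (hp : p ∈ CHS.P0 x) :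
    0 < 1 - 1 / ((p : ℝ) - 1) ∧ 1 - 1 / ((p : ℝ) - 1) ≤ 1 := by
  have h := SLW_P0 hPA hp
  have h2 : (7 : ℝ) ≤ p := by exact_mod_cast h.2.1
  have h3 : 0 < 1 / ((p : ℝ) - 1) := by
    apply div_pos one_pos
    linarith
  have h4 : 1 / ((p : ℝ) - 1) < 1 := by
    rw [div_lt_one (by linarith)]
    linarith
  exact ⟨by linarith, by linarith⟩

private theorem SLW_V (hPA : Pool.Agent.CHS.PA_stmt) {x y : ℝ} (hxy : x ≤ y) :
    0 < CHS.V (CHS.P0 y) ∧ CHS.V (CHS.P0 y) ≤ CHS.V (CHS.P0 x) ∧ CHS.V (CHS.P0 x) ≤ 1 := by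
  unfold CHS.V
  refine ⟨?_, ?_, ?_⟩
  · exact Finset.prod_pos fun p hp => (SLW_fac hPA hp).1
  · exact Finset.prod_le_prod_of_subset_of_le_one (SLW_P0_mono hPA hxy)
      (fun p hp => (SLW_fac hPA hp).1.le) (fun p hp _ => (SLW_fac hPA hp).2)
  · exact Finset.prod_le_one (fun p hp => (SLW_fac hPA hp).1.le) fun p hp => (SLW_fac hPA hp).2

private theorem SLW_prod (hPA : Pool.Agent.CHS.PA_stmt) {x y : ℝ} (hxy : x ≤ y) :
    ∏ q ∈ CHS.P0 x, (q : ℝ) ≤ ∏ q ∈ CHS.P0 y, (q : ℝ) := by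
  apply Finset.prod_le_prod_of_subset_of_one_le (SLW_P0_mono hPA hxy)
  · intro p _
    exact Nat.cast_nonneg p
  · intro p hp _
    have h := (SLW_P0 hPA hp).2.1
    have h2 : (7 : ℝ) ≤ p := by exact_mod_cast h
    linarith

/-- `MN` for weights bounded by `8` -/
private theorem SLW_mn (hMN : Pool.Agent.CHS.MN_stmt) (x H B : ℝ) (C : Finset ℕ → ℝ) (hx : 2 ≤ x)
    (hxH : x ≤ H) (hC : ∀ F, |C F| ≤ 8)
    (hS : ∀ F, C F ≠ 0 → F ⊆ PB x H ∧ ∑ p ∈ F, Real.log p ≤ B) :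
    ∃ l : ℕ → ℝ, (∀ m, |l m| ≤ 8) ∧
      (∀ m, l m ≠ 0 → Squarefree m ∧ Nat.Coprime m 30 ∧
        (m : ℝ) ≤ (∏ q ∈ CHS.P0 x, (q : ℝ)) * Real.exp B) ∧
      (∀ a : ℕ, 0 < a → (∀ q : ℕ, q.Prime → 7 ≤ q → Real.log q < x → ¬ q ∣ a) →
        wt l a = ∑ F ∈ ((PB x H).filter fun p => p ∣ a).powerset, C F) ∧
      (∀ a q : ℕ, 0 < a → q.Prime → 7 ≤ q → Real.log q < x → q ∣ a → wt l a = 0) ∧
      ∀ M : ℕ, (∏ q ∈ CHS.P0 x, (q : ℝ)) * Real.exp B ≤ M →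
        ∑ m ∈ Icc 1 M, l m / (Nat.totient m : ℝ) =
          CHS.V (CHS.P0 x) * ∑ F ∈ (PB x H).powerset, C F * CHS.g F := by
  obtain ⟨l, h1, h2, h3, h4, h5⟩ := hMN x H B (fun F => C F / 8) hx hxH
    (fun F => by
      show |C F / 8| ≤ 1
      rw [abs_div, abs_of_pos (by norm_num : (0 : ℝ) < 8), div_le_one (by norm_num)]
      exact hC F)
    (fun F hF => hS F (fun h0 => hF (by show C F / 8 = 0; rw [h0, zero_div])))
  refine ⟨fun m => 8 * l m, ?_, ?_, ?_, ?_, ?_⟩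
  · intro m
    show |8 * l m| ≤ 8
    rw [abs_mul, abs_of_pos (by norm_num : (0 : ℝ) < 8)]
    have := h1 m
    linarith
  · intro m hm
    apply h2 m
    intro h0
    apply hm
    show 8 * l m = 0
    rw [h0, mul_zero]
  · intro a ha hq
    unfold wt
    rw [← Finset.mul_sum, h3 a ha hq, Finset.mul_sum]
    apply Finset.sum_congr rfl
    intro F _
    show 8 * (C F / 8) = C F
    ring
  · intro a q ha hq h7 hlog hqa
    unfold wt
    rw [← Finset.mul_sum, h4 a q ha hq h7 hlog hqa, mul_zero]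
  · intro M hM
    have h6 := h5 M hM
    have e1 : ∑ m ∈ Icc 1 M, 8 * l m / (Nat.totient m : ℝ) =
        8 * ∑ m ∈ Icc 1 M, l m / (Nat.totient m : ℝ) := by
      rw [Finset.mul_sum]
      apply Finset.sum_congr rfl
      intro m _
      ring
    have e2 : ∑ F ∈ (PB x H).powerset, C F * CHS.g F =
        8 * ∑ F ∈ (PB x H).powerset, C F / 8 * CHS.g F := by
      rw [Finset.mul_sum]
      apply Finset.sum_congr rfl
      intro F _
      ring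
    rw [e1, e2, h6]
    ring

private theorem SLW_lt {N q : ℕ} (hN : 0 < N) (hq : 0 < q) (α : ℝ) :
    (q : ℝ) < (N : ℝ) ^ α ↔ Real.log q < α * Real.log N := by
  have h1 : (0 : ℝ) < N := by exact_mod_cast hN
  have h2 : (0 : ℝ) < q := by exact_mod_cast hq
  rw [← Real.log_lt_log_iff h2 (Real.rpow_pos_of_pos h1 α), Real.log_rpow h1]

private theorem SLW_Vle (hPA : Pool.Agent.CHS.PA_stmt) {x h : ℝ} (hx : 2 ≤ x) :
    CHS.V (PB x h) ≤ Real.exp (-CHS.sig x h) := by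
  unfold CHS.V CHS.sig
  rw [← Finset.sum_neg_distrib, Real.exp_sum]
  apply Finset.prod_le_prod
  · intro p hp
    have h1 := ((hPA.2.2.1 x h hx).2.2.2 p hp).2.2
    linarith
  · intro p _
    exact Real.one_sub_le_exp_neg _

/-- all the conditions on `a` for one set of weights -/
private theorem SLW_main (hPA : Pool.Agent.CHS.PA_stmt) (hMN : Pool.Agent.CHS.MN_stmt) (N : ℕ) (x : ℝ)
    (C C' C₂ : Finset ℕ → ℝ) (hN : 0 < N) (hx : 2 * 10 ^ 7 ≤ x) (hx' : x ≤ 4 * 10 ^ 7)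
    (hL : 16 * 10 ^ 11 ≤ Real.log N)
    (hK : 40000 * Real.log ((∏ q ∈ CHS.P0 (4 * 10 ^ 7), (q : ℝ)) + 1) ≤ Real.log N)
    (hC : ∀ F, |C F| ≤ 3 ∧ |C' F| ≤ 5 ∧ |C₂ F| ≤ 1)
    (hS : ∀ F, C F ≠ 0 ∨ C' F ≠ 0 ∨ C₂ F ≠ 0 →
      F ⊆ PB x (5 / 8 * lD N) ∧ ∑ p ∈ F, Real.log p ≤ 19 * (lD N / 19960) + lD N)
    (h1 : ∀ Γ ⊆ PB x (5 / 8 * lD N), ∑ F ∈ Γ.powerset, C F ≤
      if Γ ∩ PB x (3 / 16 * lD N) = ∅ then 1 - 1 / 2 * (#Γ : ℝ) else 0)
    (h2 : ∀ Γ ⊆ PB x (5 / 8 * lD N), |∑ F ∈ Γ.powerset, C F| ≤ ∑ F ∈ Γ.powerset, C' F)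
    (h3 : ∀ Γ ⊆ PB x (5 / 8 * lD N), (if Γ ∩ PB x (1 / 2 * lD N) = ∅ then (1 : ℝ) else 0) ≤
      ∑ F ∈ Γ.powerset, C₂ F) :
    ∃ l₁ l' l₂ : ℕ → ℝ,
      Adm 8 (QL N) l₁ ∧ Adm 8 (QL N) l' ∧ Adm 8 (QL N) l₂ ∧
      (∀ a : ℕ, 1 ≤ a → (∃ q : ℕ, q.Prime ∧ q ∣ a ∧ 7 ≤ q ∧ (q : ℝ) < (N : ℝ) ^ az) → wt l₁ a ≤ 0) ∧
      (∀ a : ℕ, 1 ≤ a → (¬ ∃ q : ℕ, q.Prime ∧ q ∣ a ∧ 7 ≤ q ∧ (q : ℝ) < (N : ℝ) ^ az) → ∀ S : Finset ℕ,
        (∀ q ∈ S, q.Prime ∧ q ∣ a ∧ (N : ℝ) ^ az ≤ (q : ℝ) ∧ (q : ℝ) < (N : ℝ) ^ ay) →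
        wt l₁ a ≤ 1 - 1 / 2 * (#S : ℝ)) ∧
      (∀ a : ℕ, 1 ≤ a → |wt l₁ a| ≤ wt l' a) ∧
      (∀ a : ℕ, 1 ≤ a → 0 ≤ wt l₂ a ∧
        ((¬ ∃ q : ℕ, q.Prime ∧ q ∣ a ∧ 7 ≤ q ∧ (q : ℝ) < (N : ℝ) ^ a2) → 1 ≤ wt l₂ a)) ∧
      mt (QL N) l₁ = CHS.V (CHS.P0 x) * ∑ F ∈ (PB x (5 / 8 * lD N)).powerset, C F * CHS.g F ∧
      mt (QL N) l' = CHS.V (CHS.P0 x) * ∑ F ∈ (PB x (5 / 8 * lD N)).powerset, C' F * CHS.g F ∧
      mt (QL N) l₂ = CHS.V (CHS.P0 x) * ∑ F ∈ (PB x (5 / 8 * lD N)).powerset, C₂ F * CHS.g F := by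
  set L := Real.log N with hLdef
  have hLd : lD N = 499 / 1000 * L := rfl
  set B := 19 * (lD N / 19960) + lD N with hB
  have hB1 : B = L * (19979 / 40000) := by
    rw [hB, hLd]
    ring
  have hx2 : 2 ≤ x := by linarith
  have hxH : x ≤ 5 / 8 * lD N := by
    rw [hLd]
    linarith
  obtain ⟨l, a1, a2', a3, a4, a5⟩ := SLW_mn hMN x (5 / 8 * lD N) B C hx2 hxH
    (fun F => (hC F).1.trans (by norm_num)) (fun F hF => hS F (Or.inl hF))
  obtain ⟨l', b1, b2, b3, b4, b5⟩ := SLW_mn hMN x (5 / 8 * lD N) B C' hx2 hxH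
    (fun F => (hC F).2.1.trans (by norm_num)) (fun F hF => hS F (Or.inr (Or.inl hF)))
  obtain ⟨l₂, c1, c2, c3, c4, c5⟩ := SLW_mn hMN x (5 / 8 * lD N) B C₂ hx2 hxH
    (fun F => (hC F).2.2.trans (by norm_num)) (fun F hF => hS F (Or.inr (Or.inr hF)))
  -- the level
  have hN' : (0 : ℝ) < N := by exact_mod_cast hN
  have hQ : QL N = Real.exp (L / 40000) * Real.exp B := by
    unfold QL
    rw [Real.rpow_def_of_pos hN', ← Real.exp_add, hB1]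
    congr 1
    ring
  have hKpos : (0 : ℝ) < ∏ q ∈ CHS.P0 (4 * 10 ^ 7), (q : ℝ) := by
    apply Finset.prod_pos
    intro q hq
    exact_mod_cast (SLW_P0 hPA hq).1.pos
  have hlev1 : (∏ q ∈ CHS.P0 x, (q : ℝ)) * Real.exp B + 1 ≤ QL N := by
    have h4 := SLW_prod hPA hx'
    have h5 : (∏ q ∈ CHS.P0 (4 * 10 ^ 7), (q : ℝ)) + 1 ≤ Real.exp (L / 40000) := by
      rw [← Real.log_le_iff_le_exp (by linarith), le_div_iff₀ (by norm_num : (0 : ℝ) < 40000), mul_comm]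
      exact hK
    have h6 : 1 ≤ Real.exp B := by
      apply Real.one_le_exp
      rw [hB1]
      apply mul_nonneg
      · linarith
      · norm_num
    have h8 := mul_le_mul_of_nonneg_right h4 (Real.exp_pos B).le
    have h9 := mul_le_mul_of_nonneg_right h5 (Real.exp_pos B).le
    rw [add_mul, one_mul] at h9
    rw [hQ]
    exact (add_le_add h8 h6).trans h9
  have hlev2 : (∏ q ∈ CHS.P0 x, (q : ℝ)) * Real.exp B ≤ (⌊QL N⌋₊ : ℕ) := by
    have h7 := Nat.sub_one_lt_floor (QL N)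
    linarith
  have hsmall : ∀ (q : ℕ), q.Prime → Real.log q < x → (q : ℝ) < (N : ℝ) ^ az := by
    intro q hq hqx
    rw [SLW_lt hN hq.pos]
    have : az * Real.log N = 3 / 16 * (499 / 1000) * L := rfl
    rw [this]
    linarith
  have hPBsub : ∀ a : ℕ, ((PB x (5 / 8 * lD N)).filter fun p => p ∣ a) ⊆ PB x (5 / 8 * lD N) :=
    fun a => Finset.filter_subset _ _
  refine ⟨l, l', l₂, ⟨a1, ?_⟩, ⟨b1, ?_⟩, ⟨c1, ?_⟩, ?_, ?_, ?_, ?_, ?_, ?_, ?_⟩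
  · intro m hm
    have := a2' m hm
    exact ⟨this.1, this.2.1, by linarith [this.2.2]⟩
  · intro m hm
    have := b2 m hm
    exact ⟨this.1, this.2.1, by linarith [this.2.2]⟩
  · intro m hm
    have := c2 m hm
    exact ⟨this.1, this.2.1, by linarith [this.2.2]⟩
  · rintro a ha ⟨q, hq, hqa, h7, hqz⟩
    by_cases hsm : ∃ p : ℕ, p.Prime ∧ 7 ≤ p ∧ Real.log p < x ∧ p ∣ a
    · obtain ⟨p, hp, hp7, hpx, hpa⟩ := hsm
      rw [a4 a p ha hp hp7 hpx hpa]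
    · have hno : ∀ p : ℕ, p.Prime → 7 ≤ p → Real.log p < x → ¬ p ∣ a :=
        fun p hp hp7 hpx hpa => hsm ⟨p, hp, hp7, hpx, hpa⟩
      rw [a3 a ha hno]
      refine (h1 _ (hPBsub a)).trans ?_
      rw [if_neg]
      intro he
      have hqx : x ≤ Real.log q := by
        by_contra hc
        exact hno q hq h7 (not_le.1 hc) hqa
      rw [SLW_lt hN hq.pos] at hqz
      have hqz' : Real.log q < 3 / 16 * (499 / 1000) * L := hqz
      have hmem : q ∈ ((PB x (5 / 8 * lD N)).filter fun p => p ∣ a) ∩ PB x (3 / 16 * lD N) := by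
        rw [Finset.mem_inter, Finset.mem_filter, hPA.1, hPA.1]
        refine ⟨⟨⟨hq, hqx, ?_⟩, hqa⟩, hq, hqx, ?_⟩
        · rw [hLd]
          linarith
        · rw [hLd]
          linarith
      rw [he] at hmem
      exact Finset.notMem_empty q hmem
  · intro a ha hne S hSq
    have hno : ∀ p : ℕ, p.Prime → 7 ≤ p → Real.log p < x → ¬ p ∣ a :=
      fun p hp hp7 hpx hpa => hne ⟨p, hp, hpa, hp7, hsmall p hp hpx⟩
    rw [a3 a ha hno]
    refine (h1 _ (hPBsub a)).trans ?_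
    rw [if_pos]
    · have hsub : S ⊆ (PB x (5 / 8 * lD N)).filter fun p => p ∣ a := by
        intro q hq
        obtain ⟨hq1, hq2, hq3, hq4⟩ := hSq q hq
        rw [Finset.mem_filter, hPA.1]
        refine ⟨⟨hq1, ?_, ?_⟩, hq2⟩
        · by_contra hc
          exact absurd (hsmall q hq1 (not_le.1 hc)) (not_lt.2 hq3)
        · rw [SLW_lt hN hq1.pos] at hq4
          have hq4' : Real.log q < 5 / 8 * (499 / 1000) * L := hq4
          rw [hLd]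
          linarith
      have hcard : (#S : ℝ) ≤ (#((PB x (5 / 8 * lD N)).filter fun p => p ∣ a) : ℝ) := by
        exact_mod_cast Finset.card_le_card hsub
      linarith
    · rw [Finset.eq_empty_iff_forall_notMem]
      intro q hq
      rw [Finset.mem_inter, Finset.mem_filter, hPA.1, hPA.1] at hq
      obtain ⟨⟨_, hqa⟩, hq1, hq2, hq3⟩ := hq
      have hq8 : 8 ≤ q := ((hPA.2.2.1 x (3 / 16 * lD N) hx2).2.2.2 q (by
        rw [hPA.1]
        exact ⟨hq1, hq2, hq3⟩)).1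
      apply hne
      refine ⟨q, hq1, hqa, by omega, ?_⟩
      rw [SLW_lt hN hq1.pos]
      show Real.log q < 3 / 16 * (499 / 1000) * L
      rw [hLd] at hq3
      linarith
  · intro a ha
    by_cases hsm : ∃ p : ℕ, p.Prime ∧ 7 ≤ p ∧ Real.log p < x ∧ p ∣ a
    · obtain ⟨p, hp, hp7, hpx, hpa⟩ := hsm
      rw [a4 a p ha hp hp7 hpx hpa, b4 a p ha hp hp7 hpx hpa, abs_zero]
    · have hno : ∀ p : ℕ, p.Prime → 7 ≤ p → Real.log p < x → ¬ p ∣ a :=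
        fun p hp hp7 hpx hpa => hsm ⟨p, hp, hp7, hpx, hpa⟩
      rw [a3 a ha hno, b3 a ha hno]
      exact h2 _ (hPBsub a)
  · intro a ha
    by_cases hsm : ∃ p : ℕ, p.Prime ∧ 7 ≤ p ∧ Real.log p < x ∧ p ∣ a
    · obtain ⟨p, hp, hp7, hpx, hpa⟩ := hsm
      rw [c4 a p ha hp hp7 hpx hpa]
      refine ⟨le_rfl, fun hne => absurd ⟨p, hp, hpa, hp7, ?_⟩ hne⟩
      rw [SLW_lt hN hp.pos]
      show Real.log p < 1 / 2 * (499 / 1000) * L
      linarith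
    · have hno : ∀ p : ℕ, p.Prime → 7 ≤ p → Real.log p < x → ¬ p ∣ a :=
        fun p hp hp7 hpx hpa => hsm ⟨p, hp, hp7, hpx, hpa⟩
      rw [c3 a ha hno]
      have h4 := h3 _ (hPBsub a)
      refine ⟨le_trans (by split_ifs <;> norm_num) h4, fun hne => ?_⟩
      rw [if_pos] at h4
      · exact h4
      · rw [Finset.eq_empty_iff_forall_notMem]
        intro q hq
        rw [Finset.mem_inter, Finset.mem_filter, hPA.1, hPA.1] at hq
        obtain ⟨⟨_, hqa⟩, hq1, hq2, hq3⟩ := hq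
        have hq8 : 8 ≤ q := ((hPA.2.2.1 x (1 / 2 * lD N) hx2).2.2.2 q (by
          rw [hPA.1]
          exact ⟨hq1, hq2, hq3⟩)).1
        apply hne
        refine ⟨q, hq1, hqa, by omega, ?_⟩
        rw [SLW_lt hN hq1.pos]
        show Real.log q < 1 / 2 * (499 / 1000) * L
        rw [hLd] at hq3
        linarith
  · exact a5 _ hlev2
  · exact b5 _ hlev2
  · exact c5 _ hlev2

theorem SLW (hPA : Pool.Agent.CHS.PA_stmt) (hVB : Pool.Agent.CHS.VB_stmt)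
    (hSL : Pool.Agent.CHS.SL_stmt) (hMN : Pool.Agent.CHS.MN_stmt) (hFLM : FLM_stmt)
    (hMTN : MTN_stmt) : SLW_stmt := by
  obtain ⟨h₀, hF⟩ := hFLM
  obtain ⟨M₀, hM⟩ := hMTN
  obtain ⟨Cs, hCs, hS⟩ := hSL
  set K0 : ℝ := 40000 * Real.log ((∏ q ∈ CHS.P0 (4 * 10 ^ 7), (q : ℝ)) + 1) with hK0
  have hv := SLW_V hPA (x := 4 * 10 ^ 7) le_rfl
  set v0 : ℝ := CHS.V (CHS.P0 (4 * 10 ^ 7)) with hv0
  set Lm : ℝ := max (max (40000 * h₀) (1000 / 499 * M₀)) (max (16 * 10 ^ 11) K0) with hLm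
  refine ⟨1000 * v0, 4 * 10 ^ 7 * 40000 * Real.exp Cs, by linarith [hv.1], by positivity,
    ⌈Real.exp Lm⌉₊, fun N hN => ?_⟩
  have hN1 : Real.exp Lm ≤ (N : ℝ) := Nat.ceil_le.1 hN
  have hNpos : (0 : ℝ) < N := (Real.exp_pos Lm).trans_le hN1
  have hN0 : 0 < N := by exact_mod_cast hNpos
  have hLL : Lm ≤ Real.log N := (Real.le_log_iff_exp_le hNpos).2 hN1
  have hL1 : 40000 * h₀ ≤ Real.log N := ((le_max_left _ _).trans (le_max_left _ _)).trans hLL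
  have hL2 : 1000 / 499 * M₀ ≤ Real.log N := ((le_max_right _ _).trans (le_max_left _ _)).trans hLL
  have hL3 : 16 * 10 ^ 11 ≤ Real.log N := ((le_max_left _ _).trans (le_max_right _ _)).trans hLL
  have hL4 : K0 ≤ Real.log N := ((le_max_right _ _).trans (le_max_right _ _)).trans hLL
  set L := Real.log N with hLdef
  have hLpos : 0 < L := by linarith
  have hLd : lD N = 499 / 1000 * L := rfl
  have hh : lD N / 19960 = L / 40000 := by
    rw [hLd]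
    ring
  obtain ⟨x, hx, hx', hWL, hWU⟩ := hF (lD N / 19960) (by rw [hh]; linarith)
  obtain ⟨C, C', C₂, g1, g2, g3, g4, g5, g6, g7, g8, g9⟩ := hM x (lD N) (by rw [hLd]; linarith) hx hx'
    hWL hWU
  obtain ⟨l₁, l', l₂, m1, m2, m3, m4, m5, m6, m7, m8, m9, m10⟩ := SLW_main hPA hMN N x C C' C₂ hN0 hx hx'
    hL3 hL4 g1 g2 g3 g4 g5
  have hvx := SLW_V hPA hx'
  have hvx0 : 0 < CHS.V (CHS.P0 x) := lt_of_lt_of_le hvx.1 hvx.2.1
  have hx2 : 2 ≤ x := by linarith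
  have hxh : x ≤ lD N / 19960 := by
    rw [hh]
    linarith
  have hhpos : 0 < lD N / 19960 := by
    rw [hh]
    positivity
  -- bounds for V (PB x h)
  have hV0 : 0 < CHS.V (PB x (lD N / 19960)) := (hPA.2.2.1 x _ hx2).1
  have hVup : CHS.V (PB x (lD N / 19960)) ≤ 4 * 10 ^ 7 * 40000 * Real.exp Cs / L := by
    have e1 := SLW_Vle hPA (h := lD N / 19960) hx2
    have e2 := hS x (lD N / 19960) hx2 hxh
    have hxpos : 0 < x := by linarith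
    have e3 : Cs / x ≤ Cs := by
      rw [div_le_iff₀ hxpos]
      nlinarith
    have e4 : Real.exp (-CHS.sig x (lD N / 19960)) ≤
        Real.exp (-Real.log (lD N / 19960 / x) + Cs) := by
      apply Real.exp_le_exp.2
      linarith
    have e5 : Real.exp (-Real.log (lD N / 19960 / x) + Cs) = x / (lD N / 19960) * Real.exp Cs := by
      rw [Real.exp_add, Real.exp_neg, Real.exp_log (div_pos hhpos hxpos), inv_div]
    have e6 : x / (lD N / 19960) * Real.exp Cs ≤ 4 * 10 ^ 7 * 40000 * Real.exp Cs / L := by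
      rw [hh, div_div_eq_mul_div, div_mul_eq_mul_div]
      apply div_le_div_of_nonneg_right _ hLpos.le
      have := Real.exp_pos Cs
      nlinarith
    linarith
  have hVlo : 10 ^ 11 / L ≤ CHS.V (PB x (lD N / 19960)) := by
    have e1 := hVB.1 x (lD N / 19960) (by linarith) hxh
    refine le_trans ?_ e1
    rw [hh]
    have e2 : x / (8 * (L / 40000)) = 5000 * x / L := by
      field_simp
      ring
    rw [e2]
    apply div_le_div_of_nonneg_right _ hLpos.le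
    linarith
  have hmt' : ∀ s : ℝ, s ≤ CHS.V (PB x (lD N / 19960)) →
      CHS.V (CHS.P0 x) * s ≤ 4 * 10 ^ 7 * 40000 * Real.exp Cs / L := by
    intro s hs
    calc CHS.V (CHS.P0 x) * s ≤ CHS.V (CHS.P0 x) * CHS.V (PB x (lD N / 19960)) :=
          mul_le_mul_of_nonneg_left hs hvx0.le
      _ ≤ 1 * CHS.V (PB x (lD N / 19960)) := mul_le_mul_of_nonneg_right hvx.2.2 hV0.le
      _ ≤ _ := by rw [one_mul]; exact hVup
  refine ⟨l₁, l', l₂, m1, m2, m3, ?_, m6, ?_, ?_, ?_, ?_, ?_⟩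
  · intro a ha
    by_cases hq : ∃ q : ℕ, q.Prime ∧ q ∣ a ∧ 7 ≤ q ∧ (q : ℝ) < (N : ℝ) ^ az
    · rw [if_pos hq]
      exact m4 a ha hq
    · rw [if_neg hq]
      apply m5 a ha hq
      intro q hq'
      rw [Finset.mem_filter, Nat.mem_primeFactors] at hq'
      exact ⟨hq'.1.1, hq'.1.2.1, hq'.2.1, hq'.2.2⟩
  · intro a ha
    have h7 := m7 a ha
    by_cases hq : ∃ q : ℕ, q.Prime ∧ q ∣ a ∧ 7 ≤ q ∧ (q : ℝ) < (N : ℝ) ^ a2
    · rw [if_pos hq]
      exact h7.1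
    · rw [if_neg hq]
      exact h7.2 hq
  · rw [m9]
    exact hmt' _ g7
  · rw [m10]
    exact mul_nonneg hvx0.le g8
  · rw [m10]
    exact hmt' _ g9
  · rw [m8, m10]
    have e1 : CHS.V (CHS.P0 x) * ∑ F ∈ (PB x (5 / 8 * lD N)).powerset, C F * CHS.g F -
        445 / 1000 * (CHS.V (CHS.P0 x) * ∑ F ∈ (PB x (5 / 8 * lD N)).powerset, C₂ F * CHS.g F) =
        CHS.V (CHS.P0 x) * (∑ F ∈ (PB x (5 / 8 * lD N)).powerset, C F * CHS.g F -
          445 / 1000 * ∑ F ∈ (PB x (5 / 8 * lD N)).powerset, C₂ F * CHS.g F) := by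
      ring
    rw [e1]
    have e2 : 1000 / L ≤ ∑ F ∈ (PB x (5 / 8 * lD N)).powerset, C F * CHS.g F -
          445 / 1000 * ∑ F ∈ (PB x (5 / 8 * lD N)).powerset, C₂ F * CHS.g F := by
      refine le_trans ?_ g6
      have e3 : 1000 / L = 10 ^ 11 / L / 10 ^ 8 := by
        rw [div_div, mul_comm L, ← div_div]
        norm_num
      rw [e3]
      exact div_le_div_of_nonneg_right hVlo (by norm_num)
    calc 1000 * v0 / L = v0 * (1000 / L) := by ring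
      _ ≤ CHS.V (CHS.P0 x) * (1000 / L) :=
          mul_le_mul_of_nonneg_right hvx.2.1 (div_nonneg (by norm_num) hLpos.le)
      _ ≤ _ := mul_le_mul_of_nonneg_left e2 hvx0.le

end Pool.Agent.EC
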